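import Mathlib

/-!
# The triangle is weakly `K_3`-Turán-good but not weakly `C_5`-Turán-good
-/

namespace Pool.Agent.Results.MP_aeb998_co.TriangleFiveCycle

open SimpleGraph

/-- number of copies of `H` in `G` (subgraphs of `G` isomorphic to `H`) -/
noncomputable def copies {V W : Type} (H : SimpleGraph V) (G : SimpleGraph W) : ℕ :=
  {S : G.Subgraph | Nonempty (H ≃g S.coe)}.ncard

/-- complete `r`-partite graphs -/
def IsCompletePartite {n : ℕ} (r : ℕ) (T : SimpleGraph (Fin n)) : Prop :=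
  ∃ c : Fin n → Fin r, Function.Surjective c ∧ ∀ x y, T.Adj x y ↔ c x ≠ c y

/-- `H` is weakly `F`-Turán-good -/
def WeaklyGood {V W : Type} (F : SimpleGraph W) (H : SimpleGraph V) : Prop :=
  ∃ r : ℕ, F.chromaticNumber = (r + 1 : ℕ) ∧ ∃ n0 : ℕ, ∀ n, n0 ≤ n →
    ∃ T : SimpleGraph (Fin n), IsCompletePartite r T ∧ F.Free T ∧
      ∀ G : SimpleGraph (Fin n), F.Free G → copies H G ≤ copies H T

/-- `F` has a color-critical edge -/
def HasCriticalEdge {W : Type} (F : SimpleGraph W) : Prop :=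
  ∃ e ∈ F.edgeSet, (F.deleteEdges {e}).chromaticNumber < F.chromaticNumber

theorem copies_eq_zero {V W : Type} (H : SimpleGraph V) (G : SimpleGraph W) (h : H.Free G) :
    copies H G = 0 := by
  unfold copies
  have : {S : G.Subgraph | Nonempty (H ≃g S.coe)} = ∅ := by
    ext S
    simp only [Set.mem_ofPred_eq, Set.mem_empty_iff_false, iff_false]
    intro hS
    exact h (isContained_iff_exists_iso_subgraph.2 ⟨S, hS⟩)
  rw [this, Set.ncard_empty]

theorem copies_pos {V : Type} {n : ℕ} (H : SimpleGraph V) (G : SimpleGraph (Fin n))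
    (h : H.IsContained G) : 0 < copies H G := by
  unfold copies
  rw [Set.ncard_pos (Set.toFinite _)]
  obtain ⟨S, hS⟩ := isContained_iff_exists_iso_subgraph.1 h
  exact ⟨S, hS⟩

theorem free_of_partite {n : ℕ} (T : SimpleGraph (Fin n)) (h : IsCompletePartite 2 T) :
    (⊤ : SimpleGraph (Fin 3)).Free T := by
  rintro ⟨f⟩
  obtain ⟨c, -, hc⟩ := h
  have key : ∀ x y : Fin 3, x ≠ y → c (f.toHom x) ≠ c (f.toHom y) := by
    intro x y hxy
    rw [← hc]
    exact f.toHom.map_adj hxy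
  have h01 := key 0 1 (by decide)
  have h02 := key 0 2 (by decide)
  have h12 := key 1 2 (by decide)
  omega

theorem good3 : WeaklyGood (⊤ : SimpleGraph (Fin 3)) (⊤ : SimpleGraph (Fin 3)) := by
  refine ⟨2, by simp, 2, fun n hn => ?_⟩
  obtain ⟨m, rfl⟩ : ∃ m, n = m + 2 := ⟨n - 2, by omega⟩
  let c : Fin (m + 2) → Fin 2 := fun x => if x = 0 then 0 else 1
  let T : SimpleGraph (Fin (m + 2)) :=
    { Adj := fun x y => c x ≠ c y
      symm := ⟨fun x y h => h.symm⟩
      loopless := ⟨fun x h => h rfl⟩ }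
  have hT : IsCompletePartite 2 T := by
    refine ⟨c, ?_, fun x y => Iff.rfl⟩
    intro i
    fin_cases i
    · exact ⟨0, by simp [c]⟩
    · exact ⟨1, by simp [c]⟩
  refine ⟨T, hT, free_of_partite T hT, fun G hG => ?_⟩
  rw [copies_eq_zero _ G hG]
  exact Nat.zero_le _

/-- one triangle and isolated vertices -/
def tri (n : ℕ) : SimpleGraph (Fin n) where
  Adj x y := x ≠ y ∧ x.1 < 3 ∧ y.1 < 3
  symm := ⟨fun _ _ h => ⟨h.1.symm, h.2.2, h.2.1⟩⟩
  loopless := ⟨fun _ h => h.1 rfl⟩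

theorem tri_free (n : ℕ) : (cycleGraph 5).Free (tri n) := by
  rintro ⟨f⟩
  have h1 : ∀ x : Fin 5, (f.toHom x).1 < 3 := by
    intro x
    have h2 : (cycleGraph 5).Adj x (x + 1) := by
      rw [cycleGraph_adj]
      revert x
      decide
    exact (f.toHom.map_adj h2).2.1
  have hinj : Function.Injective fun x : Fin 5 => (⟨(f.toHom x).1, h1 x⟩ : Fin 3) := by
    intro x y hxy
    apply f.injective
    apply Fin.ext
    have h3 := Fin.ext_iff.1 hxy
    exact h3
  have := Fintype.card_le_of_injective _ hinj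
  simp at this

theorem tri_contains (n : ℕ) (hn : 3 ≤ n) : (⊤ : SimpleGraph (Fin 3)).IsContained (tri n) := by
  refine ⟨⟨⟨fun x => ⟨x.1, by omega⟩, ?_⟩, ?_⟩⟩
  · intro x y hxy
    refine ⟨?_, x.2, y.2⟩
    intro h
    apply hxy
    apply Fin.ext
    have h3 := Fin.ext_iff.1 h
    exact h3
  · intro x y h
    apply Fin.ext
    have h3 := Fin.ext_iff.1 h
    exact h3

theorem chi5 : (cycleGraph 5).chromaticNumber = 3 :=
  chromaticNumber_cycleGraph_of_odd 5 (by norm_num) (by decide)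

theorem not_good5 : ¬ WeaklyGood (cycleGraph 5) (⊤ : SimpleGraph (Fin 3)) := by
  rintro ⟨r, hr, n0, h⟩
  rw [chi5] at hr
  have hr2 : r = 2 := by
    have : (3 : ℕ∞) = ((r + 1 : ℕ) : ℕ∞) := hr
    have h3 : (3 : ℕ) = r + 1 := by exact_mod_cast this
    omega
  subst hr2
  obtain ⟨T, hT, -, hmax⟩ := h (n0 + 3) (by omega)
  have h1 := hmax (tri (n0 + 3)) (tri_free _)
  have h2 := copies_pos _ _ (tri_contains (n0 + 3) (by omega))
  rw [copies_eq_zero _ T (free_of_partite T hT)] at h1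
  omega

theorem critical5 : HasCriticalEdge (cycleGraph 5) := by
  refine ⟨s(0, 1), ?_, ?_⟩
  · rw [mem_edgeSet, cycleGraph_adj]
    decide
  · rw [chi5]
    have hcol : ((cycleGraph 5).deleteEdges {s(0, 1)}).Colorable 2 := by
      refine ⟨Coloring.mk (![0, 0, 1, 0, 1] : Fin 5 → Fin 2) ?_⟩
      intro x y hxy
      rw [deleteEdges_adj, cycleGraph_adj] at hxy
      obtain ⟨h1, h2⟩ := hxy
      revert x y
      decide
    exact lt_of_le_of_lt hcol.chromaticNumber_le (by norm_num)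

/-- The triangle is weakly `K_3`-Turán-good, and not weakly `C_5`-Turán-good. -/
theorem result : (WeaklyGood (⊤ : SimpleGraph (Fin 3)) (⊤ : SimpleGraph (Fin 3)) ∧
      (cycleGraph 5).chromaticNumber = 3 ∧ HasCriticalEdge (cycleGraph 5) ∧
      ¬ WeaklyGood (cycleGraph 5) (⊤ : SimpleGraph (Fin 3))) ∧
    ¬ ∀ (k : ℕ) (V W : Type) [Finite V] [Finite W] (H : SimpleGraph V) (F : SimpleGraph W),
      WeaklyGood (⊤ : SimpleGraph (Fin k)) H → F.chromaticNumber = k → HasCriticalEdge F →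
      WeaklyGood F H := by
  refine ⟨⟨good3, chi5, critical5, not_good5⟩, fun h => ?_⟩
  exact not_good5 (h 3 (Fin 3) (Fin 5) ⊤ (cycleGraph 5) good3 chi5 critical5)

end Pool.Agent.Results.MP_aeb998_co.TriangleFiveCycle
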